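import Pool.Agent.Helper65.Gen3.Goals

/-!
# Packet G3-LSH: the language is in linear space

Adapted from `Pool.Agent.Helper78.Avg.Diag`.
-/

namespace Pool.Agent.Helper59.Gen3

open Pool.Agent.Helper65.LinSpace Pool.Agent.Helper78.Avg Finset
open Pool.Agent.Helper65.Gen3 (pP LSH_stmt)

section

variable {α : Type} [Ctx α]

theorem ls_hs {p s z : α → ℕ} (K : ℕ) (hp : LS p) (hs : LS s) (hz : LS z) (h0 : ∀ a, 0 < p a) :
    LS (fun a => Pool.Agent.Helper65.Gen3.hs (p a) K (s a) (z a)) := by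
  unfold Pool.Agent.Helper65.Gen3.hs
  refine LS.nrec (G := fun _ => 0) (N := fun _ => K) (C := p)
    (K := fun a i v => (v * z a + dig (p a) (s a) i) % p a) (LS.const 0) (LS.const K) hp ?_ ?_
  · fun_prop
  · intro a i _
    cases i with
    | zero => exact Nat.zero_le _
    | succ i => exact (Nat.mod_lt _ (h0 a)).le

theorem pP_pos (n : ℕ) : 0 < pP n := by
  unfold pP
  exact (nextPrime_spec (Nat.succ_ne_zero _)).1.pos

theorem ls_pP {x : α → ℕ} (hx : LS x) : LS (fun a => pP (Nat.log 2 (x a))) := by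
  unfold pP
  exact LS.nextPrime (by fun_prop)

variable {U : ℕ → ℕ → ℕ → ℕ} (k : ℕ)

theorem ls_disN (hU : LS (fun z : ℕ × ℕ × ℕ => U z.1 z.2.1 z.2.2)) {x e a s : α → ℕ} (hx : LS x)
    (he : LS e) (ha : LS a) (hs : LS s) :
    LS (fun z => Pool.Agent.Helper65.Gen3.disN U k (x z) (e z) (a z) (s z)) := by
  unfold Pool.Agent.Helper65.Gen3.disN
  refine LS.sum_le (N := fun z => 2 ^ Nat.log 2 (x z)) (B := fun _ => 1)
    (f := fun z i => (lt01 0 (U (e z) (a z) (2 ^ Nat.log 2 (x z) + i)) +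
      Pool.Agent.Helper65.Gen3.hs (pP (Nat.log 2 (x z))) (2 * k) (s z) i) % 2) ?_ (by fun_prop)
      (LS.const 1) fun z i _ => ?_
  · have h : LS (fun z : α × ℕ => U (e z.1) (a z.1) (2 ^ Nat.log 2 (x z.1) + z.2)) :=
      LS.comp (g := fun z : ℕ × ℕ × ℕ => U z.1 z.2.1 z.2.2)
        (f := fun z : α × ℕ => (e z.1, a z.1, 2 ^ Nat.log 2 (x z.1) + z.2)) hU (by fun_prop)
    have h2 : LS (fun z : α × ℕ => lt01 0 (U (e z.1) (a z.1) (2 ^ Nat.log 2 (x z.1) + z.2))) :=
      LS.lt01 (LS.const 0) h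
    have h3 : LS (fun z : α × ℕ => Pool.Agent.Helper65.Gen3.hs (pP (Nat.log 2 (x z.1))) (2 * k)
        (s z.1) z.2) :=
      ls_hs (p := fun z : α × ℕ => pP (Nat.log 2 (x z.1))) (s := fun z => s z.1)
        (z := fun z => z.2) (2 * k) (ls_pP (by fun_prop)) (by fun_prop) (by fun_prop)
        fun z => pP_pos _
    exact LS.mod (LS.add h2 h3) (LS.const 2)
  · omega

theorem ls_wtN {x e a : α → ℕ} (hx : LS x) (he : LS e) (ha : LS a) :
    LS (fun z => Pool.Agent.Helper65.Gen3.wtN k (x z) (e z) (a z)) := by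
  unfold Pool.Agent.Helper65.Gen3.wtN
  refine LS.mul (LS.mul (LS.const _) (by fun_prop)) ?_
  refine LS.pow_of_le (f := fun _ => 2) (C := fun z => (x z + 2) ^ (2 * (2 * k + 4)))
    (LS.const 2) (by fun_prop) (LS.pow_const (by fun_prop) _) fun z => ?_
  refine le_trans ?_ (Pool.Agent.Helper78.Avg.two_pow_log_le (x z) (2 * k + 4))
  refine Nat.pow_le_pow_right (by norm_num) ?_
  have h1 := min_le_right (Nat.log 2 (a z)) (k * Nat.log 2 (x z))
  have h2 := min_le_right (e z) (Nat.log 2 (x z))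
  have h3 : (2 * k + 4) * (Nat.log 2 (x z) + 1) =
      k * Nat.log 2 (x z) + k * Nat.log 2 (x z) + 4 * Nat.log 2 (x z) + 2 * k + 4 := by ring
  omega

theorem ls_vio (hU : LS (fun z : ℕ × ℕ × ℕ => U z.1 z.2.1 z.2.2)) {x e a s : α → ℕ} (hx : LS x)
    (he : LS e) (ha : LS a) (hs : LS s) :
    LS (fun z => Pool.Agent.Helper65.Gen3.vio U k (x z) (e z) (a z) (s z)) := by
  unfold Pool.Agent.Helper65.Gen3.vio
  have h1 := ls_disN k hU hx he ha hs
  have h2 := ls_wtN k hx he ha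
  exact LS.lt01 h2 (LS.pow_const (by fun_prop) (2 * k))

theorem ls_pow_log {x : α → ℕ} (hx : LS x) : LS (fun z => 2 ^ (k * Nat.log 2 (x z) + 1)) := by
  refine LS.pow_of_le (f := fun _ => 2) (C := fun z => (x z + 2) ^ (2 * (k + 1)))
    (LS.const 2) (by fun_prop) (LS.pow_const (by fun_prop) _) fun z => ?_
  refine le_trans ?_ (Pool.Agent.Helper78.Avg.two_pow_log_le (x z) (k + 1))
  refine Nat.pow_le_pow_right (by norm_num) ?_
  have h3 : (k + 1) * (Nat.log 2 (x z) + 1) = k * Nat.log 2 (x z) + Nat.log 2 (x z) + k + 1 := by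
    ring
  omega

theorem ls_badN (hU : LS (fun z : ℕ × ℕ × ℕ => U z.1 z.2.1 z.2.2)) {x s : α → ℕ} (hx : LS x)
    (hs : LS s) : LS (fun z => Pool.Agent.Helper65.Gen3.badN U k (x z) (s z)) := by
  unfold Pool.Agent.Helper65.Gen3.badN
  refine LS.sum_le (N := fun z => Nat.log 2 (x z) + 1) (B := fun z => 2 ^ (k * Nat.log 2 (x z) + 1))
    (f := fun z e => ∑ a ∈ range (2 ^ (k * Nat.log 2 (x z) + 1)),
      Pool.Agent.Helper65.Gen3.vio U k (x z) e a (s z))
    ?_ (by fun_prop) (ls_pow_log k hx) fun z i _ => ?_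
  · refine LS.sum_le (N := fun z : α × ℕ => 2 ^ (k * Nat.log 2 (x z.1) + 1)) (B := fun _ => 1)
      (f := fun z a => Pool.Agent.Helper65.Gen3.vio U k (x z.1) z.2 a (s z.1)) ?_
      (ls_pow_log k (x := fun z : α × ℕ => x z.1) (by fun_prop)) (LS.const 1)
      fun z i _ => lt01_le_one _ _
    exact ls_vio (α := (α × ℕ) × ℕ) (x := fun z => x z.1.1) (e := fun z => z.1.2)
      (a := fun z => z.2) (s := fun z => s z.1.1) k hU (by fun_prop) (by fun_prop) (by fun_prop)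
      (by fun_prop)
  · refine (sum_le_sum fun a _ => lt01_le_one _ _).trans ?_
    simp

theorem ls_hid (hU : LS (fun z : ℕ × ℕ × ℕ => U z.1 z.2.1 z.2.2)) {x : α → ℕ} (hx : LS x) :
    LS (fun z => Pool.Agent.Helper65.Gen3.hid U k (x z)) := by
  unfold Pool.Agent.Helper65.Gen3.hid
  refine LS.sum_le (N := fun z => pP (Nat.log 2 (x z)) ^ (2 * k)) (B := fun _ => 1)
    (f := fun z i => ifz (∑ j ∈ range (i + 1),
      ifz (Pool.Agent.Helper65.Gen3.badN U k (x z) j) 1 0) 1 0) ?_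
    (LS.pow_const (ls_pP hx) _) (LS.const 1) fun z i _ => ifz_le_one _
  refine LS.ifz ?_ (LS.const 1) (LS.const 0)
  refine LS.sum_le (N := fun z : α × ℕ => z.2 + 1) (B := fun _ => 1)
    (f := fun z j => ifz (Pool.Agent.Helper65.Gen3.badN U k (x z.1) j) 1 0) ?_ (by fun_prop)
    (LS.const 1) fun z i _ => ifz_le_one _
  exact LS.ifz (ls_badN (α := (α × ℕ) × ℕ) (x := fun z => x z.1.1) (s := fun z => z.2) k hU
    (by fun_prop) (by fun_prop)) (LS.const 1) (LS.const 0)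

end

theorem lsh : LSH_stmt := by
  intro U k hU
  refine LS.dlinspace (F := fun x => Pool.Agent.Helper65.Gen3.hs (pP (Nat.log 2 x)) (2 * k)
    (Pool.Agent.Helper65.Gen3.hid U k x) (x - 2 ^ Nat.log 2 x) % 2) ?_ _ ?_
  · have h := ls_hid k hU (x := fun x : ℕ => x) LS.id
    exact LS.mod (ls_hs (α := ℕ) (p := fun x => pP (Nat.log 2 x)) (2 * k) (ls_pP LS.id) h
      (by fun_prop) fun x => pP_pos _) (LS.const 2)
  · intro w
    show Pool.Agent.Helper65.Gen3.hs (pP w.length) (2 * k)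
      (Pool.Agent.Helper65.Gen3.hid U k (num w)) (num w - 2 ^ w.length) % 2 = 1 ↔ _
    rw [Pool.Agent.Helper78.Avg.log_num]
    omega

end Pool.Agent.Helper59.Gen3
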